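import Pool.Agent.helper52.T1.SpecS

set_option autoImplicit false

open scoped MatrixGroups ContDiff Topology UpperHalfPlane ComplexConjugate
open UpperHalfPlane MeasureTheory Filter Set

namespace Pool.Agent.T1

open Pool.Agent.RS Pool.Agent.MS Pool.Agent.HV
open Pool.Agent.EN (XG MG mkX mkM fl pr)

noncomputable section

theorem BLQ_Kc {p : ℕ → Bool} (hp : p 0 = true) : Kc p 0 1 = 1 := by
  classical
  unfold Kc
  have h1 : (Finset.Ico 0 1).filter (fun i => p i = true) = {0} := by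
    ext i
    rw [Finset.mem_filter, Finset.mem_Ico, Finset.mem_singleton]
    constructor
    · rintro ⟨⟨-, h⟩, -⟩
      omega
    · rintro rfl
      exact ⟨⟨le_rfl, one_pos⟩, hp⟩
  have h2 : ((Finset.Ico 0 1).filter (fun i => p i = true)).card = 1 := by
    rw [h1, Finset.card_singleton]
  exact h2

theorem BLQ_mono {Y : Set ℝ} {J : Finset ℕ} {Q Q' : ℝ} (h : LQ Y J Q) (hQ : Q ≤ Q') : LQ Y J Q' := by
  intro a
  refine (h a).trans (mul_le_mul_of_nonneg_right hQ ?_)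
  exact Finset.sum_nonneg fun j _ => sq_nonneg _

theorem BLQ_ycl {W : Set SL(2, ℝ)} {N0 k : ℕ} {p : ℕ → Bool} {h : SL(2, ℝ)} : ∀ c ∈ YC W N0 k p h, c < N0 ^ k := by
  intro c hc
  classical
  unfold YC at hc
  exact Finset.mem_range.1 (Finset.mem_filter.1 hc).1

theorem BLQ_proof (hHSB : HSB_stmt) (hCNB : CNB_stmt) : BLQ_stmt := by
  intro Γ hΓ
  obtain ⟨C, hC, H⟩ := hCNB Γ hΓ
  refine ⟨C, hC, ?_⟩
  intro b K N0 A W p q hb hb1 hK hKN hN hW
  have hN1 : 1 ≤ N0 ^ 1 := by rw [pow_one]; omega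
  refine ⟨fun h g => (hHSB (N0 ^ 1) (YC W N0 1 p h) (JN W N0 1 q g) hN1 BLQ_ycl).2, ?_⟩
  intro hp hq h g
  refine BLQ_mono (hHSB (N0 ^ 1) (YC W N0 1 p h) (JN W N0 1 q g) hN1 BLQ_ycl).1 ?_
  have h1 := (H b K N0 A W hb hb1 hK hKN hN hW 1 p h).1
  have h2 := (H b K N0 A W hb hb1 hK hKN hN hW 1 q g).2
  rw [BLQ_Kc hp] at h1
  rw [BLQ_Kc hq] at h2
  simp only [pow_one, Nat.sub_self, pow_zero, mul_one] at h1 h2 ⊢
  have hN0 : (0 : ℝ) < N0 := by
    have : 0 < N0 := by omega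
    exact_mod_cast this
  have hT : 0 ≤ C * K * A.card := by positivity
  rw [div_mul_eq_mul_div]
  refine div_le_div_of_nonneg_right ?_ hN0.le
  rw [sq]
  exact mul_le_mul h1 h2 (Nat.cast_nonneg _) hT

end

end Pool.Agent.T1
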