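import Pool.Agent.helper46.T1.SpecP
import Pool.Agent.helper62.RS.All
import Pool.Agent.helper41.MS.EQ4

/-!
# MP_07c750, project T1, row PDF
-/

set_option autoImplicit false

open scoped MatrixGroups ContDiff Topology UpperHalfPlane ComplexConjugate
open UpperHalfPlane MeasureTheory Filter Set

namespace Pool.Agent.TP

open Pool.Agent.RS Pool.Agent.MS

theorem PDF_proof (hPMN : PMN_stmt) (hPAV : PAV_stmt) : PDF_stmt := by
  intro β α hβ hα w0 hw0 hw1
  refine ⟨1 / 100, w0 / 5000, by norm_num, le_refl _, by positivity, ?_⟩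
  intro Γ F hΓ hF
  obtain ⟨a1, ha1, h1⟩ := hPMN Γ F β α hΓ hF hβ hα
  refine ⟨a1 / 16, by positivity, ?_⟩
  intro a Cκ ha haa hC
  obtain ⟨n1, hn1, h2⟩ := h1 (16 * a) Cκ w0 (by positivity) (by linarith) hC hw0 (by linarith)
  obtain ⟨m, hm⟩ := exists_nat_ge (Real.exp n1)
  refine ⟨max m 1, le_max_right _ _, ?_⟩
  intro N0 A κ κa κn κl hN hA hSF hrg hev hbn hbl hsu
  have hN1 : 1 ≤ N0 := (le_max_right _ _).trans hN
  have hNm : m ≤ N0 := (le_max_left _ _).trans hN
  have hN1' : (1 : ℝ) ≤ N0 := by exact_mod_cast hN1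
  have hN0 : (0 : ℝ) < N0 := by linarith
  have hNm' : (m : ℝ) ≤ N0 := by exact_mod_cast hNm
  have hlog : n1 ≤ Real.log N0 := by
    rw [Real.le_log_iff_exp_le hN0]
    exact hm.trans hNm'
  have hexp : Real.exp (Real.log N0) = N0 := Real.exp_log hN0
  have hexp' : Real.exp (-Real.log N0) = 1 / N0 := by
    rw [Real.exp_neg, hexp, one_div]
  have hA' : (A.card : ℝ) ≤ Real.exp (Real.log N0 / 4) := by
    refine hA.trans ?_
    have e1 : Real.exp (Real.log N0 / 4) = (N0 : ℝ) ^ (1 / 4 : ℝ) := by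
      rw [Real.rpow_def_of_pos hN0]
      congr 1
      ring
    rw [e1]
    exact Real.rpow_le_rpow_of_exponent_le hN1' (by norm_num)
  have hKF : KF Γ A (16 * a) Cκ (Real.log N0) κ κa κn κl := 
    ⟨hSF, hrg, hev, hbn, fun g => by rw [hexp]; exact hbl g,
      fun g hg => by rw [hexp']; exact hsu g hg⟩
  obtain ⟨r0, hr0, h3⟩ := h2 (Real.log N0) A κ κa κn κl hlog hA' hKF
  refine ⟨max r0 (Real.exp (1 / w0 ^ 2)), hr0.trans (le_max_left _ _), ?_⟩
  intro r φ hr hφ hnn hex t ht1 ht2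
  obtain ⟨t1, ht3, ht4, ht5⟩ := hex
  have hrr0 : r0 ≤ r := (le_max_left _ _).trans hr
  have hrpos : 0 < r := by linarith
  have hL : 1 / w0 ^ 2 ≤ Real.log r := by
    rw [Real.le_log_iff_exp_le hrpos]
    exact (le_max_right _ _).trans hr
  have hL0 : 0 < Real.log r := lt_of_lt_of_le (by positivity) hL
  have hsq : Real.sqrt (Real.log r) ≤ w0 * Real.log r := by
    rw [Real.sqrt_le_left (by positivity)]
    have h5 : 1 ≤ w0 ^ 2 * Real.log r := by
      rw [div_le_iff₀ (by positivity)] at hL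
      linarith
    have h6 : (w0 * Real.log r) ^ 2 = (w0 ^ 2 * Real.log r) * Real.log r := by ring
    rw [h6]
    exact le_mul_of_one_le_left hL0.le h5
  have key := h3 r φ t t1 hrr0 hφ hnn ht3 ht4 ht5 (hsq.trans ht1) (by
    have h5 : (1 - 2 * w0) * Real.log r = Real.log r - 2 * (w0 * Real.log r) := by ring
    linarith)
  refine key.trans (mul_le_mul_of_nonneg_left ?_ hrpos.le)
  have hW : 0 < w0 * Real.log r := by positivity
  obtain ⟨-, -, Aa, An, Al, hAv, -⟩ :=
    hPAV Γ κ κa κn κl (w0 * Real.log r) Cκ (Cκ * N0) hSF hrg hbn hbl hW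
  have hcont : Continuous (av κ (w0 * Real.log r)) := hAv.i0.1
  have hmul : Continuous fun g : SL(2, ℝ) => g * aM t := continuous_mul_const _
  have hcont' : Continuous fun g : SL(2, ℝ) => av κ (w0 * Real.log r) (g * aM t) :=
    hcont.comp hmul
  have hS : MeasurableSet {g : SL(2, ℝ) | 1 / 25 ≤ av κ (w0 * Real.log r) (g * aM t) ∧
      av κ (w0 * Real.log r) (g * aM t) ≤ 1 - 2 * (1 / 100)} :=
    (measurableSet_le measurable_const hcont'.measurable).inter
      (measurableSet_le hcont'.measurable measurable_const)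
  have hφ' : InvC Γ φ := ⟨EQ4_cont hφ.1, hφ.2.1⟩
  have hα' : SB (1 / 4) α := ⟨hα.1.1, fun x hx => (hα.1.2 x hx).trans (by norm_num)⟩
  obtain ⟨hX, mX, hXm⟩ := EQ4_pf A_FL0 A_CV1 A_GBD hΓ hβ.1 hα' r hφ'
  obtain ⟨⟨hmF, -, hfin, -⟩, -⟩ := A_GFD Γ F hΓ hF
  have hfm : IsFiniteMeasure (mG.restrict (dG F)) := ⟨by rwa [Measure.restrict_apply_univ]⟩
  have hint : IntegrableOn (fun g => ‖pf β α r φ g‖ ^ 2) (dG F) mG := by
    refine Integrable.of_bound ((hX.1.norm.pow 2).measurable.aestronglyMeasurable) (mX ^ 2)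
      (Filter.Eventually.of_forall fun g => ?_)
    rw [Real.norm_eq_abs, abs_of_nonneg (by positivity)]
    exact pow_le_pow_left₀ (norm_nonneg _) (hXm g) 2
  unfold iR
  rw [setIntegral_indicator hS]
  refine setIntegral_mono_set (hint.mono_set inter_subset_left)
    (Filter.Eventually.of_forall fun g => by positivity) ?_
  refine (HasSubset.Subset.eventuallyLE ?_)
  rintro g ⟨hg, hg1, hg2⟩
  refine ⟨hg, hg1.le, hg2.le.trans ?_⟩
  norm_num

end Pool.Agent.TP
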